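import Mathlib
import Pool.Agent.Q254.FCover

/-!
# Faithful circuit covers need not extend across a 5-circuit with one weight-2 edge

There is a cubic graph with 18 vertices, an eulerian weight (the edges of weight 2 form a perfect
matching), a weight-2 edge `e₀` on a 5-circuit whose other edges have weight 1, such that
`(G - e₀, w)` has a faithful circuit cover (with three members) and `(G, w)` has none.
-/

namespace Pool.Agent.Results.MP_6dc06d_co.FiveCircuitFails

open Pool.Agent.Q254.FCover

theorem result :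
    (∃ (G : Pool.Agent.Q254.FCover.Graph (Fin 18) (Fin 27)) (w : Fin 27 → ℕ) (e₀ : Fin 27) (C₀ : Finset (Fin 27)),
      G.Cubic ∧ (∀ e, w e = 1 ∨ w e = 2) ∧ G.Eulerian w ∧ w e₀ = 2 ∧ G.IsCircuit C₀ ∧
      C₀.card = 5 ∧ (C₀.filter fun e => w e = 2) = {e₀} ∧
      (∃ F, G.FaithfulCover (Finset.univ.erase e₀) w F) ∧
      ¬ ∃ F, G.FaithfulCover Finset.univ w F) ∧
    ¬ Statement := by
  have hw : w 1 = 2 := by decide +kernel
  refine ⟨⟨G, w, 1, c0.toFinset, cubic, weights, eulerian, hw, circ0, card_c0, filter_c0,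
    ⟨_, cover_minus⟩, no_cover⟩, fun h => ?_⟩
  refine no_cover ?_
  have h1 := h (Fin 18) (Fin 27) inferInstance inferInstance inferInstance inferInstance G w 1
    c0.toFinset cubic weights eulerian hw circ0 card_c0 filter_c0 ⟨_, cover_minus⟩
  exact h1

end Pool.Agent.Results.MP_6dc06d_co.FiveCircuitFails
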